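import Pool.Agent.Run7.h731.Met.LCm

/-!
# Piece LC of project Met (helper146): the first moment on `A`
-/

set_option autoImplicit false

open MeasureTheory Filter Topology ENNReal

namespace Run7.h731.Met

open Run7.h146.Met Run7.h590.Met Run7.h662.Met

variable {d : ℕ}

/-- the cell has positive finite volume -/
theorem cell_pos {h : ℝ} (hh : 0 < h) : 0 < (volume {x : V d | rd h x = 0}).toReal := by
  refine ENNReal.toReal_pos ?_ ?_
  · have hsub : Metric.ball (WithLp.toLp 2 (fun _ => h / 2) : V d) (h / 4) ⊆ {x : V d | rd h x = 0} := by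
      intro x hx
      rw [Set.mem_ofPred_eq, rd_zero_iff hh]
      funext i
      simp only [kf, Pi.zero_apply]
      rw [Int.floor_eq_zero_iff]
      have h1 : ‖(x - (WithLp.toLp 2 (fun _ => h / 2) : V d)) i‖ ≤
          ‖x - (WithLp.toLp 2 (fun _ => h / 2) : V d)‖ := PiLp.norm_apply_le _ i
      have h2 : (x - (WithLp.toLp 2 (fun _ => h / 2) : V d)) i = x i - h / 2 := rfl
      rw [mem_ball_iff_norm] at hx
      rw [h2, Real.norm_eq_abs] at h1
      have h3 := abs_le.1 (h1.trans hx.le)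
      constructor
      · exact div_nonneg (by linarith) hh.le
      · rw [div_lt_one hh]
        linarith
    exact (lt_of_lt_of_le (Metric.measure_ball_pos _ _ (by linarith)) (measure_mono hsub)).ne'
  · have hsub : {x : V d | rd h x = 0} ⊆ Metric.closedBall 0 (h * Real.sqrt d) := by
      intro x hx
      rw [Set.mem_ofPred_eq, rd_zero_iff hh] at hx
      rw [mem_closedBall_zero_iff]
      exact norm_le_of_kf hh hx
    exact (lt_of_le_of_lt (measure_mono hsub) measure_closedBall_lt_top).ne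

theorem cell_fin {h : ℝ} (hh : 0 < h) : volume {x : V d | rd h x = 0} ≠ ⊤ := by
  intro e
  have := cell_pos (d := d) hh
  rw [e] at this
  simp at this

/-- the error terms -/
theorem err (C : ℝ) : ∃ j₀ : ℕ, ∀ j : ℕ, j₀ ≤ j →
    2 * C * Real.exp (-((2 : ℝ) ^ j / 2)) ≤ (1 / 4 : ℝ) ^ j := by
  have h1 := (Real.tendsto_pow_mul_exp_neg_atTop_nhds_zero 2).const_mul (8 * C)
  have h2 : Tendsto (fun j : ℕ => (2 : ℝ) ^ j / 2) atTop atTop :=
    (tendsto_pow_atTop_atTop_of_one_lt (by norm_num)).atTop_div_const (by norm_num)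
  have h3 := h1.comp h2
  rw [mul_zero] at h3
  obtain ⟨j₀, hj₀⟩ := eventually_atTop.1 (h3.eventually_le_const (show (0 : ℝ) < 1 by norm_num))
  refine ⟨j₀, fun j hj => ?_⟩
  have h4 := hj₀ j hj
  simp only [Function.comp] at h4
  have h5 : (0 : ℝ) < 4 ^ j := by positivity
  have h6 : (1 / 4 : ℝ) ^ j = 1 / 4 ^ j := by rw [div_pow, one_pow]
  have h7 : ((2 : ℝ) ^ j) ^ 2 = 4 ^ j := by
    rw [← pow_mul, mul_comm, pow_mul]
    norm_num
  rw [h6, le_div_iff₀ h5, ← h7]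
  calc 2 * C * Real.exp (-((2 : ℝ) ^ j / 2)) * ((2 : ℝ) ^ j) ^ 2
      = 8 * C * (((2 : ℝ) ^ j / 2) ^ 2 * Real.exp (-((2 : ℝ) ^ j / 2))) := by ring
    _ ≤ 1 := h4

theorem t_LC : S_PO1 → S_PO2 → S_MK → S_MB → S_IND → S_MAP → S_CT → S_DIN → S_MEAS → S_LCB →
    S_LCM → S_LC := by
  classical
  intro hPO hPO2 hMK hMB hI hMAP hCT hDIN hME hLCB hLCM d ε κ C r₀ hd hε hC
  have hLoc := hC.loc
  obtain ⟨hκ0, hκ1, hC1, hr₀, -, -⟩ := hC.loc
  have hd' : (0 : ℝ) < d := by exact_mod_cast hd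
  have hsd : 0 < Real.sqrt d := Real.sqrt_pos.2 hd'
  set h : ℝ := ε / Real.sqrt d with hh'
  have hh : 0 < h := by positivity
  have hhe : h * Real.sqrt d ≤ ε := by
    rw [hh', div_mul_cancel₀ _ hsd.ne']
  set v : ℝ := (volume {x : V d | rd h x = 0}).toReal with hv
  have hv0 : 0 < v := cell_pos hh
  obtain ⟨k₀, hk₀⟩ := exists_pow_lt_of_lt_one (show (0 : ℝ) < κ / 2 by positivity)
    (show (1 / 2 : ℝ) < 1 by norm_num)
  refine ⟨v / 2, k₀, by positivity, ?_⟩
  intro k hk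
  -- reduction to `0 ≤ R`
  suffices key : ∀ (R : ℝ) (A : Set (Finset (X d))) (η : ℝ), 0 ≤ R → 0 < η → MeasurableSet A →
      ∃ j₀ : ℕ, ∀ j : ℕ, j₀ ≤ j → ∃ Q₀ : ℝ, ∀ Q : ℝ, Q₀ ≤ Q →
      PQ d R A * ENNReal.ofReal (v / 2 * (2 : ℝ) ^ j * (pp d ε ((2 : ℝ) ^ (j + 1)) -
        η * pp d ε ((2 : ℝ) ^ (j - k)) - (1 / 4) ^ j)) ≤
      ∫⁻ F in {F | res (Metric.ball 0 R) F ∈ A}, Vj ε j F ∂(PQ d Q) by
    intro R A η hη hA
    rcases le_or_gt 0 R with hR | hR
    · exact key R A η hR hη hA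
    · have e : Metric.ball (0 : V d) R = Metric.ball (0 : V d) 0 := by
        rw [Metric.ball_eq_empty.2 hR.le, Metric.ball_eq_empty.2 le_rfl]
      have e2 : PQ d R = PQ d 0 := by
        unfold PQ
        rw [e]
      rw [e2, e]
      exact key 0 A η le_rfl hη hA
  intro R A η hR hη hA
  rcases eq_or_ne (PQ d R A) 0 with h0 | h0
  · refine ⟨0, fun j _ => ⟨0, fun Q _ => ?_⟩⟩
    rw [h0, zero_mul]
    exact zero_le
  have hpos : 0 < PQ d R A := pos_iff_ne_zero.2 h0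
  obtain ⟨-, -, -, hB⟩ := hMB d hd
  have hsig := (hMB d hd).1
  have hsig1 := (hMB d hd).2.1
  have hfinR := (hB (Metric.ball (0 : V d) R) measurableSet_ball measure_ball_lt_top.ne).1
  have hprR : IsProbabilityMeasure (PQ d R) := (hPO d (mB (Metric.ball (0 : V d) R))).1
  set a : ℝ := (PQ d R A).toReal with ha'
  have ha : ENNReal.ofReal a = PQ d R A := ENNReal.ofReal_toReal (measure_ne_top _ _)
  have ha0 : 0 ≤ a := ENNReal.toReal_nonneg
  set η' : ℝ := min η 1 with hη'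
  have hη'0 : 0 < η' := lt_min hη one_pos
  obtain ⟨N₀, hN₀⟩ := hLCB d h R A η' hd hh hR hA hpos hη'0
  obtain ⟨j₁, hj₁⟩ := err C
  obtain ⟨j₂, hj₂⟩ := eventually_atTop.1
    ((tendsto_pow_atTop_atTop_of_one_lt (show (1 : ℝ) < 2 by norm_num)).eventually_ge_atTop
      (max (2 * (R + ε)) (max (2 * r₀) N₀)))
  refine ⟨max k (max j₁ j₂), fun j hj => ?_⟩
  have hjk : k ≤ j := (le_max_left _ _).trans hj
  have hj1 : j₁ ≤ j := ((le_max_left _ _).trans (le_max_right _ _)).trans hj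
  have hj2 : j₂ ≤ j := ((le_max_right _ _).trans (le_max_right _ _)).trans hj
  have hbig := hj₂ j hj2
  have hb1 : 2 * (R + ε) ≤ (2 : ℝ) ^ j := (le_max_left _ _).trans hbig
  have hb2 : 2 * r₀ ≤ (2 : ℝ) ^ j := ((le_max_left _ _).trans (le_max_right _ _)).trans hbig
  have hb3 : (N₀ : ℝ) ≤ (2 : ℝ) ^ j := ((le_max_right _ _).trans (le_max_right _ _)).trans hbig
  set N : ℕ := 2 ^ j with hN
  have hNr : (N : ℝ) = (2 : ℝ) ^ j := by rw [hN]; push_cast; rfl
  have hNN₀ : N₀ ≤ N := by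
    rw [← hNr] at hb3
    exact_mod_cast hb3
  rw [← hNr] at hb1 hb2
  have hN1 : (2 : ℝ) ≤ N := by linarith
  set r : ℝ := 4 * N / κ with hr
  set ρ : ℝ := (N : ℝ) / 2 with hρ
  set s : ℝ := (2 : ℝ) ^ (j - k) with hs
  have hκr : κ * r = 4 * N := by
    rw [hr, mul_div_cancel₀ _ hκ0.ne']
  have hr64 : 64 * (N : ℝ) ≤ r := by
    rw [hr, le_div_iff₀ hκ0]
    nlinarith
  have hs0 : 0 ≤ s := by positivity
  have hsN : s ≤ κ * ρ := by
    have e1 : s * 2 ^ k = N := by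
      rw [hs, ← pow_add, Nat.sub_add_cancel hjk, hNr]
    have e2 : (1 / 2 : ℝ) ^ k ≤ κ / 2 :=
      (pow_le_pow_of_le_one (by norm_num) (by norm_num) hk).trans hk₀.le
    have e3 : s = N * (1 / 2 : ℝ) ^ k := by
      rw [← e1, mul_assoc, ← mul_pow]
      norm_num
    rw [e3, hρ]
    have e4 := mul_le_mul_of_nonneg_left e2 (show (0 : ℝ) ≤ N by positivity)
    linarith
  have hsN2 : s ≤ 2 * N := by
    have : κ * ρ ≤ 1 * ρ := mul_le_mul_of_nonneg_right (by linarith) (by positivity)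
    have : ρ ≤ 2 * N := by rw [hρ]; linarith
    linarith
  refine ⟨r + 2 * N + ε, fun Q hQ => ?_⟩
  -- the fixed meteor bound
  have hfix := fun (z : X d) (hz : ‖z.2‖ = 1) =>
    fixed hPO hMK hMB hI hME hd hε hC (h := h) (R := R) (A := A) (a := a) (η := η') hh hhe hR hA ha0
      N s r ρ hs0 (fun z B hz hB hBf hsub => hN₀ N hNN₀ z B hz hB hBf hsub) hη'0.le (by linarith)
      (by rw [hρ]; linarith) hsN hsN2 (by rw [hκr]; linarith) (by rw [hρ]; linarith) (by linarith) z hz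
  set Xx : ℝ := pp d ε (2 * N) - C * Real.exp (-r) - (pp d ε s + C * Real.exp (-ρ)) * η' with hXx
  have hp0 : 0 ≤ pp d ε s := (hC.rng s).1
  have hY : pp d ε ((2 : ℝ) ^ (j + 1)) - η * pp d ε ((2 : ℝ) ^ (j - k)) - (1 / 4) ^ j ≤ Xx := by
    have e1 : (2 : ℝ) ^ (j + 1) = 2 * N := by rw [hNr, pow_succ]; ring
    rw [e1, ← hs, hXx]
    have e2 : Real.exp (-r) ≤ Real.exp (-ρ) := by
      apply Real.exp_le_exp.2
      rw [hρ]
      linarith
    have e3 : pp d ε s * η' ≤ η * pp d ε s := by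
      rw [mul_comm η]
      exact mul_le_mul_of_nonneg_left (min_le_left _ _) hp0
    have e4 : C * Real.exp (-ρ) * η' ≤ C * Real.exp (-ρ) * 1 :=
      mul_le_mul_of_nonneg_left (min_le_right _ _) (by positivity)
    have e5 := hj₁ j hj1
    rw [← hNr, ← hρ] at e5
    have e6 : C * Real.exp (-r) ≤ C * Real.exp (-ρ) :=
      mul_le_mul_of_nonneg_left e2 (by linarith)
    nlinarith
  -- the cell
  set S : Set (X d) := {z : X d | rd h z.1 = 0} with hS
  have mS : MeasurableSet S := by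
    have : S = (fun z : X d => kf h z.1) ⁻¹' {0} := by
      ext z
      simp only [hS, Set.mem_ofPred_eq, Set.mem_preimage, Set.mem_singleton_iff]
      exact rd_zero_iff hh _
    rw [this]
    exact ((kf_meas h).comp measurable_fst) (measurableSet_singleton 0)
  have hSv : ((volume : Measure (V d)).prod (sig d)) S = ENNReal.ofReal v := by
    have e : S = {x : V d | rd h x = 0} ×ˢ Set.univ := by
      ext z; simp [hS]
    rw [e, Measure.prod_prod, measure_univ, mul_one, hv, ENNReal.ofReal_toReal (cell_fin hh)]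
  have hae : ∀ᵐ z ∂((volume : Measure (V d)).prod (sig d)), ‖z.2‖ = 1 := by
    rw [ae_iff]
    have e : {a : X d | ¬ ‖a.2‖ = 1} = Set.univ ×ˢ {v : V d | ‖v‖ ≠ 1} := by
      ext z; simp
    rw [e, Measure.prod_prod, hsig1, mul_zero]
  have hUn := (hME d ε hd hε).2.2.2.2.2.2.2.2.2.1
  have mGG : ∀ t : ℕ, Measurable fun z : X d => GG ε κ r R (t : ℝ) A z (rd h (pos z (t : ℝ))) :=
    fun t => GG_meas hPO hPO2 hMB hMAP hCT hDIN hME hd hε κ r R t hA
      ((rd_meas h).comp (pos_meas (t : ℝ)))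
  calc PQ d R A * ENNReal.ofReal (v / 2 * (2 : ℝ) ^ j * (pp d ε ((2 : ℝ) ^ (j + 1)) -
        η * pp d ε ((2 : ℝ) ^ (j - k)) - (1 / 4) ^ j))
      ≤ ENNReal.ofReal (a * N / 2 * Xx) * ENNReal.ofReal v := by
        rw [← ha, ← ENNReal.ofReal_mul ha0, ← ENNReal.ofReal_mul' hv0.le]
        apply ENNReal.ofReal_le_ofReal
        rw [← hNr]
        calc a * (v / 2 * N * (pp d ε ((2 : ℝ) ^ (j + 1)) -
            η * pp d ε ((2 : ℝ) ^ (j - k)) - (1 / 4) ^ j))
            ≤ a * (v / 2 * N * Xx) := by gcongr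
          _ = _ := by ring
    _ = ∫⁻ _ in S, ENNReal.ofReal (a * N / 2 * Xx) ∂((volume : Measure (V d)).prod (sig d)) := by
        rw [setLIntegral_const, hSv]
    _ ≤ ∫⁻ z in S, ∑ t ∈ Finset.Ico N (2 * N), GG ε κ r R (t : ℝ) A z (rd h (pos z (t : ℝ)))
          ∂((volume : Measure (V d)).prod (sig d)) := by
        refine lintegral_mono_ae ?_
        filter_upwards [ae_restrict_of_ae hae] with z hz
        exact hfix z hz
    _ = ∑ t ∈ Finset.Ico N (2 * N), ∫⁻ z in S, GG ε κ r R (t : ℝ) A z (rd h (pos z (t : ℝ)))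
          ∂((volume : Measure (V d)).prod (sig d)) :=
        lintegral_finset_sum _ fun t _ => mGG t
    _ ≤ ∑ t ∈ Finset.Ico N (2 * N), ∫⁻ F in {F | res (Metric.ball 0 R) F ∈ A}, Un ε (t : ℝ) F
          ∂(PQ d Q) := by
        refine Finset.sum_le_sum fun t ht => ?_
        rw [Finset.mem_Ico] at ht
        have t1 : (N : ℝ) ≤ t := by exact_mod_cast ht.1
        have t2 : (t : ℝ) ≤ 2 * N := by exact_mod_cast ht.2.le
        exact hLCM d ε κ C r₀ hd hε hLoc h R A t r Q hh hhe hR hA (by linarith) (by linarith)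
          (by rw [hκr]; linarith) (by linarith) (by linarith)
    _ = ∫⁻ F in {F | res (Metric.ball 0 R) F ∈ A}, Vj ε j F ∂(PQ d Q) := by
        rw [← lintegral_finset_sum (Finset.Ico N (2 * N)) (f := fun (t : ℕ) => Un ε (t : ℝ))
          fun t _ => hUn (t : ℝ)]
        unfold Vj
        have e : 2 * N = 2 ^ (j + 1) := by rw [hN, pow_succ]; ring
        rw [e]

end Run7.h731.Met
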