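import Pool.Agent.Run7.h662.Met.LCM
import Pool.Agent.Run7.h590.Met.ONE

/-!
# Piece LC of project Met (helper146), part 1: the lower bound for a fixed meteor
-/

set_option autoImplicit false

open MeasureTheory Filter Topology ENNReal

namespace Run7.h731.Met

open Run7.h146.Met Run7.h590.Met

variable {d : ℕ}

open Classical in
/-- the configuration seen from `x` in the ball of radius `R` depends on the points in `ball x R` -/
theorem res_sh (x : V d) (R : ℝ) {B : Set (V d)} (hB : Metric.ball x R ⊆ B) (F : Finset (X d)) :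
    res (Metric.ball 0 R) (sh x (res B F)) = res (Metric.ball 0 R) (sh x F) := by
  ext y
  simp only [mem_res, sh, Finset.mem_image]
  constructor
  · rintro ⟨⟨w, ⟨hw, hwB⟩, rfl⟩, h⟩
    exact ⟨⟨w, hw, rfl⟩, h⟩
  · rintro ⟨⟨w, hw, rfl⟩, h⟩
    refine ⟨⟨w, ⟨hw, hB ?_⟩, rfl⟩, h⟩
    rw [mem_ball_iff_norm]
    rwa [mem_ball_zero_iff] at h

theorem norm_rd (h : ℝ) (hh : 0 < h) (x : V d) : ‖x - rd h x‖ ≤ h * Real.sqrt d := by
  apply Run7.h662.Met.norm_le_of_kf hh
  funext i
  simp only [Run7.h662.Met.kf, Pi.zero_apply]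
  have h1 : (x - rd h x) i / h = x i / h - ⌊x i / h⌋ := by
    have : (x - rd h x) i = x i - h * ⌊x i / h⌋ := rfl
    rw [this]
    field_simp
  rw [h1, Int.floor_sub_intCast, sub_self]

open Classical in
/-- the count of the times at which `A` occurs -/
noncomputable def NN (h R : ℝ) (A : Set (Finset (X d))) (N : ℕ) (z : X d) (F : Finset (X d)) : ℕ :=
  ((Finset.Ico N (2 * N)).filter fun t : ℕ =>
    res (Metric.ball 0 R) (sh (rd h (pos z (t : ℝ))) F) ∈ A).card

theorem NN_meas (hME : S_MEAS) (hd : 0 < d) {ε : ℝ} (hε : 0 < ε) (h R : ℝ) {A : Set (Finset (X d))}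
    (hA : MeasurableSet A) (N : ℕ) (z : X d) : Measurable fun F => (NN h R A N z F : ℝ) := by
  classical
  obtain ⟨m1, m2, -⟩ := hME d ε hd hε
  have e : (fun F => (NN h R A N z F : ℝ)) = fun F => ∑ t ∈ Finset.Ico N (2 * N),
      ({F | res (Metric.ball 0 R) (sh (rd h (pos z (t : ℝ))) F) ∈ A} : Set (Finset (X d))).indicator
        (fun _ => (1 : ℝ)) F := by
    funext F
    unfold NN
    rw [Finset.card_filter]
    push_cast
    refine Finset.sum_congr rfl fun t _ => ?_
    by_cases c : res (Metric.ball 0 R) (sh (rd h (pos z (t : ℝ))) F) ∈ A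
    · rw [if_pos c, Set.indicator_of_mem (by exact c)]
    · rw [if_neg c, Set.indicator_of_notMem (by exact c)]
  rw [e]
  refine Finset.measurable_sum _ fun t _ => ?_
  exact measurable_const.indicator (((m1 _ measurableSet_ball).comp (m2 _)) hA)

end Run7.h731.Met
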