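import Pool.Agent.Run7.h731.Met.LC1

/-!
# Piece LC of project Met (helper146), part 2: the lower bound for a fixed meteor
-/

set_option autoImplicit false

open MeasureTheory Filter Topology ENNReal

namespace Run7.h731.Met

open Run7.h146.Met Run7.h590.Met

variable {d : ℕ}

theorem alive_mono {ε : ℝ} {z : X d} {s t : ℝ} {F : Finset (X d)} (hst : s ≤ t)
    (h : alive ε z t F) : alive ε z s F :=
  lt_of_le_of_lt (ENNReal.ofReal_le_ofReal hst) h

theorem dist_pos (z : X d) (hz : ‖z.2‖ = 1) {t : ℝ} (ht : 0 ≤ t) : ‖pos z t - z.1‖ = t := by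
  have : pos z t - z.1 = t • z.2 := by unfold pos; abel
  rw [this, norm_smul, hz, mul_one, Real.norm_of_nonneg ht]

/-- the balls about the points of the path lie in the annulus -/
theorem ball_sub {h ε R ρ r : ℝ} (hh : 0 < h) (hhe : h * Real.sqrt d ≤ ε) (z : X d)
    (hz : ‖z.2‖ = 1) {t : ℝ} (ht : 0 ≤ t) (h1 : ρ + R + ε ≤ t) (h2 : t + R + ε ≤ r) :
    Metric.ball (rd h (pos z t)) R ⊆ Metric.ball z.1 r \ Metric.ball z.1 ρ := by
  intro x hx
  rw [mem_ball_iff_norm] at hx
  have a1 : ‖pos z t - rd h (pos z t)‖ ≤ ε := (norm_rd h hh _).trans hhe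
  have a2 := dist_pos z hz ht
  constructor
  · rw [mem_ball_iff_norm]
    have e : x - z.1 = (x - rd h (pos z t)) - (pos z t - rd h (pos z t)) + (pos z t - z.1) := by abel
    rw [e]
    have b1 := norm_add_le ((x - rd h (pos z t)) - (pos z t - rd h (pos z t))) (pos z t - z.1)
    have b2 := norm_sub_le (x - rd h (pos z t)) (pos z t - rd h (pos z t))
    linarith
  · rw [mem_ball_iff_norm]
    push Not
    have e : pos z t - z.1 = (pos z t - rd h (pos z t)) - (x - rd h (pos z t)) + (x - z.1) := by abel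
    have b1 := norm_add_le ((pos z t - rd h (pos z t)) - (x - rd h (pos z t))) (x - z.1)
    have b2 := norm_sub_le (pos z t - rd h (pos z t)) (x - rd h (pos z t))
    rw [← e, a2] at b1
    linarith

theorem fixed (hPO : S_PO1) (hMK : S_MK) (hMB : S_MB) (hI : S_IND) (hME : S_MEAS)
    {ε κ C r₀ : ℝ} (hd : 0 < d) (hε : 0 < ε) (hC : Core d ε κ C r₀) {h R : ℝ}
    {A : Set (Finset (X d))} {a η : ℝ} (hh : 0 < h) (hhe : h * Real.sqrt d ≤ ε) (hR : 0 ≤ R)
    (hA : MeasurableSet A) (ha : 0 ≤ a) (N : ℕ) (s r ρ : ℝ) (hs : 0 ≤ s)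
    (hLCB : ∀ (z : X d) (B : Set (V d)), ‖z.2‖ = 1 → MeasurableSet B → volume B ≠ ⊤ →
      (∀ t ∈ Finset.Ico N (2 * N), Metric.ball (rd h (pos z (t : ℝ))) R ⊆ B) →
      poi (mB B) {F | (NN h R A N z F : ℝ) < a * N / 2} ≤ ENNReal.ofReal η)
    (hη : 0 ≤ η) (hρ : r₀ ≤ ρ) (hρr : ρ ≤ r) (hsρ : s ≤ κ * ρ) (hN2 : s ≤ 2 * N)
    (hNr : 2 * N ≤ κ * r)
    (h1 : ρ + R + ε ≤ N) (h2 : 2 * N + R + ε ≤ r) (z : X d) (hz : ‖z.2‖ = 1) :
    ENNReal.ofReal (a * N / 2 * (pp d ε (2 * N) - C * Real.exp (-r) -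
      (pp d ε s + C * Real.exp (-ρ)) * η)) ≤
      ∑ t ∈ Finset.Ico N (2 * N), GG ε κ r R (t : ℝ) A z (rd h (pos z (t : ℝ))) := by
  classical
  obtain ⟨m1, m2, -, -, -, halive, -, -, hLm, -⟩ := hME d ε hd hε
  have hLoc := hC.loc
  obtain ⟨hκ0, hκ1, hC1, hr₀, hL1, -⟩ := hLoc
  have hr0r : r₀ ≤ r := hρ.trans hρr
  have hN0 : (0 : ℝ) ≤ N := Nat.cast_nonneg N
  set B : Set (V d) := Metric.ball z.1 r with hBdef
  set B₁ : Set (V d) := Metric.ball z.1 ρ with hB1
  set B₂ : Set (V d) := B \ B₁ with hB2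
  have hBf : volume B ≠ ⊤ := measure_ball_lt_top.ne
  have mB₁ : MeasurableSet B₁ := measurableSet_ball
  have mB₂ : MeasurableSet B₂ := measurableSet_ball.diff measurableSet_ball
  obtain ⟨-, -, -, hB⟩ := hMB d hd
  have hfin := (hB B measurableSet_ball hBf).1
  have hprob := (hPO d (mB B)).1
  set ν := poi (mB B) with hν
  -- events
  set E : Set (Finset (X d)) := {F | alive ε z (2 * N) F ∧ Loc ε κ r z F} with hE
  set bad : Set (Finset (X d)) := {F | (NN h R A N z F : ℝ) < a * N / 2} with hbad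
  have mE : MeasurableSet E := (halive z _).inter (hLm z κ r)
  have mbad : MeasurableSet bad := measurableSet_lt (NN_meas hME hd hε h R hA N z) measurable_const
  set U : Set (Finset (X d)) := {F | alive ε z s F ∨ ¬ Loc ε κ ρ z F} with hU
  have mU : MeasurableSet U := (halive z s).union (hLm z κ ρ).compl
  have hball : ∀ t ∈ Finset.Ico N (2 * N), Metric.ball (rd h (pos z (t : ℝ))) R ⊆ B₂ := by
    intro t ht
    rw [Finset.mem_Ico] at ht
    have t1 : (N : ℝ) ≤ t := by exact_mod_cast ht.1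
    have t2 : (t : ℝ) ≤ 2 * N := by exact_mod_cast ht.2.le
    exact ball_sub hh hhe z hz (hN0.trans t1) (h1.trans t1) (by linarith)
  -- step 1
  have st1 : ENNReal.ofReal (pp d ε (2 * N) - C * Real.exp (-r)) ≤ ν E :=
    (hC.lim r (2 * N) z hr0r (by positivity) hNr hz).2
  -- step 2
  have hNNres : ∀ F, NN h R A N z (res B₂ F) = NN h R A N z F := by
    intro F
    unfold NN
    congr 1
    refine Finset.filter_congr fun t ht => ?_
    rw [res_sh _ _ (hball t ht)]
  have hpr : poi (mB (∅ : Set (V d))) Set.univ = 1 := by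
    have := (hB ∅ MeasurableSet.empty (by simp)).1
    have := (hPO d (mB (∅ : Set (V d)))).1
    exact measure_univ
  have st2 : ν (E ∩ bad) ≤ ENNReal.ofReal (pp d ε s + C * Real.exp (-ρ)) * ENNReal.ofReal η := by
    calc ν (E ∩ bad) ≤ ν {F | res B₁ F ∈ U ∧ res B₂ F ∈ bad ∧ res ∅ F ∈ Set.univ} := by
          refine measure_mono_ae ?_
          filter_upwards [ae_good hMB hMK hd measurableSet_ball hBf z] with F hF
          rintro ⟨⟨k1, k2⟩, k3⟩
          refine ⟨?_, ?_, Set.mem_univ _⟩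
          · show alive ε z s (res B₁ F) ∨ ¬ Loc ε κ ρ z (res B₁ F)
            rw [loc_res]
            by_cases hl : Loc ε κ ρ z F
            · left
              exact (hL1 F z ρ s hF.1 hz hF.2 hρ hs hsρ hl).1 (alive_mono hN2 k1)
            · exact Or.inr hl
          · show ((NN h R A N z (res B₂ F) : ℕ) : ℝ) < a * N / 2
            rw [hNNres]
            exact k3
      _ = poi (mB B₁) U * poi (mB B₂) bad * poi (mB (∅ : Set (V d))) Set.univ :=
          ind3 hI m1 hd measurableSet_ball hBf mB₁ mB₂ MeasurableSet.empty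
            (Metric.ball_subset_ball hρr) Set.diff_subset (Set.empty_subset _)
            (Set.disjoint_left.2 fun x hx hx' => hx'.2 hx) (Set.disjoint_empty _)
            (Set.disjoint_empty _) mU mbad MeasurableSet.univ
      _ ≤ _ := by
          rw [hpr, mul_one]
          gcongr
          · exact (hC.lim ρ s z hρ hs hsρ hz).1
          · exact hLCB z B₂ hz mB₂ (measure_ne_top_of_subset Set.diff_subset hBf) hball
  -- step 3
  have hp0 : 0 ≤ pp d ε s := (hC.rng s).1
  have hpC : 0 ≤ pp d ε s + C * Real.exp (-ρ) := by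
    have : 0 ≤ C := by linarith
    positivity
  have st3 : ENNReal.ofReal (pp d ε (2 * N) - C * Real.exp (-r) -
      (pp d ε s + C * Real.exp (-ρ)) * η) ≤ ν (E \ bad) := by
    have k1 : ν E ≤ ν (E \ bad) + ν (E ∩ bad) := by
      rw [add_comm, measure_inter_add_diff E mbad]
    have k2 := st1.trans (k1.trans (add_le_add le_rfl st2))
    rw [← ENNReal.ofReal_mul hpC] at k2
    rw [ENNReal.ofReal_sub _ (by positivity)]
    exact tsub_le_iff_right.2 k2
  -- step 4
  have st4 : ENNReal.ofReal (a * N / 2) * ν (E \ bad) ≤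
      ∑ t ∈ Finset.Ico N (2 * N), GG ε κ r R (t : ℝ) A z (rd h (pos z (t : ℝ))) := by
    set At : ℕ → Set (Finset (X d)) := fun t =>
      {F | res (Metric.ball 0 R) (sh (rd h (pos z (t : ℝ))) F) ∈ A} with hAt
    have mAt : ∀ t, MeasurableSet (At t) := fun t => ((m1 _ measurableSet_ball).comp (m2 _)) hA
    have q1 : ∀ t ∈ Finset.Ico N (2 * N), ν (E ∩ At t) ≤
        GG ε κ r R (t : ℝ) A z (rd h (pos z (t : ℝ))) := by
      intro t ht
      rw [Finset.mem_Ico] at ht
      have t2 : (t : ℝ) ≤ 2 * N := by exact_mod_cast ht.2.le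
      refine measure_mono ?_
      rintro F ⟨⟨k1, k2⟩, k3⟩
      exact ⟨alive_mono t2 k1, k2, k3⟩
    refine le_trans ?_ (Finset.sum_le_sum q1)
    have q2 : ∑ t ∈ Finset.Ico N (2 * N), ν (E ∩ At t) =
        ∫⁻ F, ∑ t ∈ Finset.Ico N (2 * N), (E ∩ At t).indicator 1 F ∂ν := by
      rw [lintegral_finset_sum _ fun t _ => measurable_one.indicator (mE.inter (mAt t))]
      refine Finset.sum_congr rfl fun t _ => ?_
      rw [lintegral_indicator_one (mE.inter (mAt t))]
    rw [q2, ← lintegral_indicator_const (mE.diff mbad)]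
    refine lintegral_mono fun F => ?_
    by_cases hF : F ∈ E \ bad
    · rw [Set.indicator_of_mem hF]
      have k1 : ∑ t ∈ Finset.Ico N (2 * N), (E ∩ At t).indicator (1 : Finset (X d) → ℝ≥0∞) F =
          (NN h R A N z F : ℝ≥0∞) := by
        unfold NN
        rw [Finset.card_filter]
        push_cast
        refine Finset.sum_congr rfl fun t _ => ?_
        by_cases c : res (Metric.ball 0 R) (sh (rd h (pos z (t : ℝ))) F) ∈ A
        · rw [if_pos c, Set.indicator_of_mem (show F ∈ E ∩ At t from ⟨hF.1, c⟩), Pi.one_apply]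
        · rw [if_neg c, Set.indicator_of_notMem (fun hc => c hc.2)]
      rw [k1]
      have k2 : a * N / 2 ≤ (NN h R A N z F : ℝ) := not_lt.1 hF.2
      calc ENNReal.ofReal (a * N / 2) ≤ ENNReal.ofReal (NN h R A N z F : ℝ) :=
            ENNReal.ofReal_le_ofReal k2
        _ = _ := ENNReal.ofReal_natCast _
    · rw [Set.indicator_of_notMem hF]
      exact zero_le
  refine le_trans ?_ st4
  rw [ENNReal.ofReal_mul (by positivity)]
  gcongr

end Run7.h731.Met
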