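import Pool.Agent.Run7.h731.Met.LC2

/-!
# Piece LC of project Met (helper146): measurability of `GG`
-/

set_option autoImplicit false

open MeasureTheory Filter Topology ENNReal

namespace Run7.h731.Met

open Run7.h146.Met Run7.h590.Met Run7.h662.Met

variable {d : ℕ}

theorem rd_meas (h : ℝ) : Measurable (rd h : V d → V d) := by
  have e : (rd h : V d → V d) = fun x => lam h (kf h x) := by
    funext x
    exact rd_eq h x
  rw [e]
  have h1 : Measurable (lam h : (Fin d → ℤ) → V d) := measurable_of_countable _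
  exact h1.comp (kf_meas h)

/-- the image -/
noncomputable def im {n : ℕ} (y : Fin n → X d) : Finset (X d) :=
  @Finset.image _ _ (fun a b => Classical.propDecidable (a = b)) y Finset.univ

theorem sh_im (x : V d) {n : ℕ} (y : Fin n → X d) :
    sh x (im y) = im fun i => ((y i).1 - x, (y i).2) := by
  ext w
  simp only [sh, im, Finset.mem_image, Finset.mem_univ, true_and]
  constructor
  · rintro ⟨a, ⟨i, rfl⟩, rfl⟩
    exact ⟨i, rfl⟩
  · rintro ⟨i, rfl⟩
    exact ⟨y i, ⟨i, rfl⟩, rfl⟩

theorem TM_comp {β γ : Type} [MeasurableSpace β] [MeasurableSpace γ] {h : γ → Finset (X d) → ℝ≥0∞}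
    (hT : TM h) {f : β → γ} (hf : Measurable f) : TM (fun b F => h (f b) F) := by
  intro n
  have u := hT n
  have u2 : Measurable fun p : β × (Fin n → X d) => ((f p.1, p.2) : γ × (Fin n → X d)) :=
    (hf.comp measurable_fst).prodMk measurable_snd
  exact u.comp u2

theorem TM_mul {β : Type} [MeasurableSpace β] {h g : β → Finset (X d) → ℝ≥0∞}
    (hT : TM h) (hG : TM g) : TM (fun b F => h b F * g b F) := by
  intro n
  exact (hT n).mul (hG n)

theorem TM_sh {β : Type} [MeasurableSpace β] {G : Finset (X d) → ℝ≥0∞}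
    (hG : TM (fun _ : β => G)) {f : β → V d} (hf : Measurable f) :
    TM (fun b F => G (sh (f b) F)) := by
  intro n
  have u : Measurable fun p : β × (Fin n → X d) => G (im p.2) := hG n
  have u2 : Measurable fun p : β × (Fin n → X d) =>
      ((p.1, fun i => ((p.2 i).1 - f p.1, (p.2 i).2)) : β × (Fin n → X d)) := by
    refine measurable_fst.prodMk (measurable_pi_lambda _ fun i => ?_)
    have v1 : Measurable fun p : β × (Fin n → X d) => p.2 i :=
      (measurable_pi_apply i).comp measurable_snd
    exact (v1.fst.sub (hf.comp measurable_fst)).prodMk v1.snd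
  have u3 : Measurable fun p : β × (Fin n → X d) => G (im fun i => ((p.2 i).1 - f p.1, (p.2 i).2)) :=
    u.comp u2
  have e : (fun p : β × (Fin n → X d) => G (sh (f p.1) (im p.2))) =
      fun p => G (im fun i => ((p.2 i).1 - f p.1, (p.2 i).2)) := by
    funext p
    rw [sh_im]
  have u4 : Measurable fun p : β × (Fin n → X d) => G (sh (f p.1) (im p.2)) := by
    rw [e]
    exact u3
  exact u4

set_option maxHeartbeats 400000 in
open Classical in
theorem GG_meas (hPO : S_PO1) (hPO2 : S_PO2) (hMB : S_MB) (hMAP : S_MAP) (hCT : S_CT)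
    (hDIN : S_DIN) (hME : S_MEAS) (hd : 0 < d) {ε : ℝ} (hε : 0 < ε) (κ r R t : ℝ)
    {A : Set (Finset (X d))} (hA : MeasurableSet A) {x : X d → V d} (hx : Measurable x) :
    Measurable fun z : X d => GG ε κ r R t A z (x z) := by
  obtain ⟨m1, m2, -, mT1, -, halive, -, mT2, hLm, -⟩ := hME d ε hd hε
  obtain ⟨-, -, -, hB⟩ := hMB d hd
  have hfin := (hB (Metric.ball (0 : V d) r) measurableSet_ball measure_ball_lt_top.ne).1
  have mG : Measurable fun F : Finset (X d) => (A.indicator 1 (res (Metric.ball 0 R) F) : ℝ≥0∞) :=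
    (measurable_one.indicator hA).comp (m1 _ measurableSet_ball)
  have f1 : Measurable fun z : X d => ((((0 : V d), z.2), t) : X d × ℝ) :=
    (measurable_const.prodMk measurable_snd).prodMk measurable_const
  have f2 : Measurable fun z : X d => (((0 : V d), z.2) : X d) :=
    measurable_const.prodMk measurable_snd
  have f3 : Measurable fun z : X d => x z - z.1 := hx.sub measurable_fst
  have q1 := TM_comp mT1 f1
  have q2 := TM_comp (mT2 κ r) f2
  have q3 := TM_sh ((hPO d (mB (Metric.ball (0 : V d) r))).2.2.2 (X d) _ mG) f3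
  have hTM := TM_mul (TM_mul q1 q2) q3
  have hm := (hPO2 d (X d) _ hTM).2.2.2.1 (mB (Metric.ball (0 : V d) r))
  refine (congrArg Measurable ?_).mpr hm
  funext z
  have e1 := GG_tr hMB hMAP hCT hDIN hME hd hε κ r R t hA (((0 : V d), z.2) : X d) (x z - z.1) z.1
  have e2 : tr z.1 (((0 : V d), z.2) : X d) = z := by
    rw [tr_apply]
    simp
  rw [e2, add_sub_cancel] at e1
  rw [e1, GG_eq, ← lintegral_indicator_one (EV_meas hME hd hε κ r R t hA _ _)]
  refine lintegral_congr fun F => ?_
  by_cases c1 : alive ε ((0 : V d), z.2) t F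
  · by_cases c2 : Loc ε κ r ((0 : V d), z.2) F
    · by_cases c3 : res (Metric.ball 0 R) (sh (x z - z.1) F) ∈ A
      · rw [Set.indicator_of_mem (show F ∈ EV ε κ r R t A _ _ from ⟨c1, c2, c3⟩)]
        simp [c1, c2, c3]
      · rw [Set.indicator_of_notMem (fun hF => c3 hF.2.2)]
        simp [c3]
    · rw [Set.indicator_of_notMem (fun hF => c2 hF.2.1)]
      simp [c2]
  · rw [Set.indicator_of_notMem (fun hF => c1 hF.1)]
    simp [c1]

end Run7.h731.Met
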